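import Pool.Agent.T9h59.WL.Core
import Pool.Agent.T9h51.MT.Primes
import Pool.Agent.H442R2.KF.AsmC

/-!
# The weighted level of distribution for residues near the orders of the subgroups of `F_p^*`

The numbers of the exceptional residues are from the starting files (`Pool.Agent.N900.WS.fewW_affine`,
`Pool.Agent.H442R2.KF.weighted`), some lemmas on monotonicity from `Pool.Agent.T9h51.MT.Primes` (helper51).
-/

set_option autoImplicit false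

namespace Pool.Agent.T9h59.WL

open Finset
open Pool.Agent.N733.TG (Expanding)
open Pool.Agent.T9h59.OR (SubOrder)
open Pool.Agent.T9h51.MT (Bad bad_two)

lemma log_two_pow (j B : ℕ) : Real.log ((2 ^ j : ℕ) : ℝ) ^ B ≤ ((j : ℝ) + 1) ^ B := by
  have e1 : Real.log ((2 ^ j : ℕ) : ℝ) = j * Real.log 2 := by push_cast; rw [Real.log_pow]
  have e2 := Real.log_two_lt_d9
  have e3 := Real.log_two_gt_d9
  have e4 : (0 : ℝ) ≤ j := Nat.cast_nonneg j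
  rw [e1]
  apply pow_le_pow_left₀ (by positivity)
  nlinarith

/-- **All systems of residues `a r(q) + v(q)`.** -/
theorem systems {G : ℕ → ℝ} {d ϑ γ ρ θ lam : ℝ} (hG : Expanding G d) (hϑ0 : 0 ≤ ϑ) (hϑ1 : ϑ < 1) (hγ0 : 0 ≤ γ) (hγ1 : γ < 1)
    (hθ1 : 1 / 2 ≤ θ) (hθ2 : θ < 1) (hlam : 0 < lam) (hρ : ρ + lam * (2 * θ - 1) < (1 - γ) * (1 - ϑ) / 2)
    (κ : ℝ) (hκ : 1 ≤ κ) (U m : ℕ) :
    ∃ C : ℝ, ∀ X : ℕ, 1 ≤ X → ∀ r v : ℕ → ℕ, (∀ q, 1 ≤ q → (r q).Coprime q) →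
      ({p : ℕ | p.Prime ∧ p ≤ X ∧ ∃ w, SubOrder ((X : ℝ) ^ γ) p w ∧ ∃ a : ℕ, |(a : ℝ) - G w| ≤ (w : ℝ) ^ ϑ ∧
        ∃ N : ℕ, X ≤ N ^ m ∧ (N : ℝ) ≤ (X : ℝ) ^ lam ∧ Bad κ U θ r v N a}.ncard : ℝ) ≤ C * (X : ℝ) ^ (1 - ρ) := by
  classical
  have hd1 := hG.one_le
  obtain ⟨D, hD⟩ : ∃ D : ℝ, D = d * m + 1 := ⟨_, rfl⟩
  have hD0 : 0 ≤ D := by rw [hD]; positivity
  obtain ⟨B, N₀, hfew⟩ := Pool.Agent.N900.WS.fewW_affine κ hκ (U + 1) (1 - θ) D (by linarith) hD0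
  obtain ⟨C, hC⟩ := core hG hϑ0 hϑ1 hγ0 hγ1 (τ := 2 * θ - 1) (by linarith) hlam hρ m B (N₀ + 8) 1 zero_le_one
  refine ⟨C, fun X hX r v hr => ?_⟩
  obtain ⟨A, hA⟩ : ∃ A : ℕ → Finset ℕ, ∀ j, A j = if N₀ + 8 ≤ 2 ^ j then
      (range (⌊((2 ^ j : ℕ) : ℝ) ^ D⌋₊ + 1)).filter (fun a => Bad κ (U + 1) θ r v (2 ^ j) a) else ∅ := ⟨_, fun _ => rfl⟩
  refine hC X hX A (Bad κ U θ r v) ?_ ?_
  · intro j
    rw [hA]
    split_ifs with hj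
    · have h1 := hfew (2 ^ j) (by omega) ⌊((2 ^ j : ℕ) : ℝ) ^ θ⌋₊ (by
        rw [sub_sub_cancel]
        exact Nat.floor_le (by positivity)) r v hr
        ((range (⌊((2 ^ j : ℕ) : ℝ) ^ D⌋₊ + 1)).filter (fun a => Bad κ (U + 1) θ r v (2 ^ j) a)) (by
          intro a ha
          rw [mem_filter, mem_range] at ha
          refine ⟨?_, ha.2⟩
          have h2 : a ≤ ⌊((2 ^ j : ℕ) : ℝ) ^ D⌋₊ := by omega
          exact (Nat.cast_le.2 h2).trans (Nat.floor_le (by positivity)))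
      refine h1.trans ?_
      have h3 : (⌊((2 ^ j : ℕ) : ℝ) ^ θ⌋₊ : ℝ) ^ 2 / ((2 ^ j : ℕ) : ℝ) ≤ 1 * (2 : ℝ) ^ ((j : ℝ) * (2 * θ - 1)) := by
        rw [one_mul, div_le_iff₀ (by positivity)]
        have e1 : (⌊((2 ^ j : ℕ) : ℝ) ^ θ⌋₊ : ℝ) ≤ (2 : ℝ) ^ ((j : ℝ) * θ) := by
          refine (Nat.floor_le (by positivity)).trans (le_of_eq ?_)
          push_cast
          rw [← Real.rpow_natCast, ← Real.rpow_mul (by norm_num)]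
        calc (⌊((2 ^ j : ℕ) : ℝ) ^ θ⌋₊ : ℝ) ^ 2 ≤ ((2 : ℝ) ^ ((j : ℝ) * θ)) ^ 2 := pow_le_pow_left₀ (Nat.cast_nonneg _) e1 2
          _ = (2 : ℝ) ^ ((j : ℝ) * (2 * θ - 1)) * ((2 ^ j : ℕ) : ℝ) := by
              push_cast
              rw [← Real.rpow_natCast ((2 : ℝ) ^ ((j : ℝ) * θ)) 2, ← Real.rpow_mul (by norm_num), ← Real.rpow_natCast (2 : ℝ) j,
                ← Real.rpow_add (by norm_num)]
              congr 1
              push_cast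
              ring
      exact mul_le_mul h3 (log_two_pow j B) (pow_nonneg (Real.log_nonneg (by exact_mod_cast Nat.one_le_two_pow)) _)
        (by positivity)
    · rw [card_empty, Nat.cast_zero]
      positivity
  · intro N a hN ha hbad
    have h3 : N < 2 ^ (Nat.log 2 N + 1) := Nat.lt_pow_succ_log_self (by norm_num) _
    rw [hA, if_pos (by omega), mem_filter, mem_range]
    refine ⟨?_, bad_two κ hκ U θ (by linarith) r v N _ (by omega) hbad⟩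
    apply Nat.lt_succ_of_le
    apply Nat.le_floor
    rw [← hD] at ha
    refine ha.trans (Real.rpow_le_rpow (Nat.cast_nonneg _) ?_ hD0)
    exact_mod_cast h3.le

/-- **One residue, level `14/27`.** -/
theorem fixed {G : ℕ → ℝ} {d ϑ γ ρ θ lam : ℝ} (hG : Expanding G d) (hϑ0 : 0 ≤ ϑ) (hϑ1 : ϑ < 1) (hγ0 : 0 ≤ γ) (hγ1 : γ < 1)
    (hθ1 : 0 ≤ θ) (hθ2 : θ < 14 / 27) (hlam : 0 < lam) (hρ : ρ < (1 - γ) * (1 - ϑ) / 2) (κ : ℝ) (hκ : 1 ≤ κ) (U m : ℕ) :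
    ∃ C : ℝ, ∀ X : ℕ, 1 ≤ X →
      ({p : ℕ | p.Prime ∧ p ≤ X ∧ ∃ w, SubOrder ((X : ℝ) ^ γ) p w ∧ ∃ a : ℕ, |(a : ℝ) - G w| ≤ (w : ℝ) ^ ϑ ∧
        ∃ N : ℕ, X ≤ N ^ m ∧ (N : ℝ) ≤ (X : ℝ) ^ lam ∧ 1 ≤ a ∧ a ≤ N ∧ Bad κ U θ (fun _ => 1) (fun _ => 0) N a}.ncard : ℝ) ≤
        C * (X : ℝ) ^ (1 - ρ) := by
  classical
  obtain ⟨B, C₀, hC₀, hfew⟩ := Pool.Agent.H442R2.KF.weighted κ hκ θ hθ2 (U + 1)
  obtain ⟨C, hC⟩ := core hG hϑ0 hϑ1 hγ0 hγ1 (τ := 0) (ρ := ρ) le_rfl hlam (by linarith) m B 8 C₀ hC₀.le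
  refine ⟨C, fun X hX => ?_⟩
  obtain ⟨A, hA⟩ : ∃ A : ℕ → Finset ℕ, ∀ j, A j = if 3 ≤ 2 ^ j then
      (Icc 1 (2 ^ j)).filter (fun a => Bad κ (U + 1) θ (fun _ => 1) (fun _ => 0) (2 ^ j) a) else ∅ := ⟨_, fun _ => rfl⟩
  refine hC X hX A (fun N a => 1 ≤ a ∧ a ≤ N ∧ Bad κ U θ (fun _ => 1) (fun _ => 0) N a) ?_ ?_
  · intro j
    rw [hA]
    split_ifs with hj
    · have h1 := hfew (2 ^ j) hj
      rw [mul_zero, Real.rpow_zero, mul_one]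
      refine le_trans ?_ (h1.trans (mul_le_mul_of_nonneg_left (log_two_pow j B) hC₀.le))
      rw [Nat.cast_le]
      refine card_le_card (fun a ha => ?_)
      rw [mem_filter] at ha ⊢
      refine ⟨ha.1, ?_⟩
      have h2 := ha.2
      unfold Bad Pool.Agent.N900.WS.SW at h2
      simpa only [mul_one, add_zero] using h2
    · rw [card_empty, Nat.cast_zero]
      positivity
  · rintro N a hN - ⟨ha1, haN, hbad⟩
    have h3 : N < 2 ^ (Nat.log 2 N + 1) := Nat.lt_pow_succ_log_self (by norm_num) _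
    rw [hA, if_pos (by omega), mem_filter, mem_Icc]
    exact ⟨⟨ha1, by omega⟩, bad_two κ hκ U θ hθ1 _ _ N _ (by omega) hbad⟩

end Pool.Agent.T9h59.WL
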