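import Pool.Agent.T9h59.OR.D

/-!
# Residues near the orders of the subgroups of `F_p^*`: properties at all heights `N` in a polynomial range

For each power of two `2 ^ j` let `A j` be a set of `O(2 ^ (j τ) (j + 1) ^ B)` integers. The tool bounds the number of primes
`p ≤ X` such that for the order `w` of a subgroup of `F_p^*` which contains a small integer, some integer `a` near `G w` and
some `N` with `X ≤ N ^ m`, `N ≤ X ^ lam`, the integer `a` is in the set belonging to the power of two after `N`.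
-/

set_option autoImplicit false

namespace Pool.Agent.T9h59.WL

open Finset
open Pool.Agent.N733.TG (Expanding)
open Pool.Agent.T9h59.OR (SubOrder sub_scale)

/-- a power of the logarithm -/
lemma log_bound (lam ε : ℝ) (hlam : 0 < lam) (hε : 0 < ε) (B : ℕ) : ∃ K : ℝ, 0 ≤ K ∧ ∀ X : ℕ, 1 ≤ X → ∀ J : ℕ,
    ((2 : ℝ) ^ J) ≤ 2 * (X : ℝ) ^ lam → ((J : ℝ) + 1) ^ (B + 1) ≤ K * (X : ℝ) ^ ε := by
  obtain ⟨e, he⟩ : ∃ e : ℝ, e = ε / (B + 1) := ⟨_, rfl⟩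
  have he0 : 0 < e := by rw [he]; positivity
  refine ⟨(2 * lam / e + 3) ^ (B + 1), by positivity, fun X hX J hJ => ?_⟩
  have hX1 : (1 : ℝ) ≤ X := by exact_mod_cast hX
  have hX0 : (0 : ℝ) < X := by linarith
  have h1 : (J : ℝ) * Real.log 2 ≤ Real.log 2 + lam * Real.log X := by
    rw [← Real.log_pow, ← Real.log_rpow hX0, ← Real.log_mul (by norm_num) (by positivity)]
    exact Real.log_le_log (by positivity) hJ
  have h2 : (0.69 : ℝ) < Real.log 2 := by linarith [Real.log_two_gt_d9]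
  have h3 : 0 ≤ Real.log X := Real.log_nonneg hX1
  have h4 : (J : ℝ) ≤ 1 + 2 * (lam * Real.log X) := by
    by_contra hcon
    push Not at hcon
    have h5 : (1 + 2 * (lam * Real.log X)) * Real.log 2 < J * Real.log 2 :=
      mul_lt_mul_of_pos_right hcon (by linarith)
    have h6 : 0 ≤ lam * Real.log X := by positivity
    nlinarith
  have h5 : Real.log X ≤ (X : ℝ) ^ e / e := Real.log_le_rpow_div hX0.le he0
  have h6 : (1 : ℝ) ≤ (X : ℝ) ^ e := Real.one_le_rpow hX1 he0.le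
  have h7 : (J : ℝ) + 1 ≤ (2 * lam / e + 3) * (X : ℝ) ^ e := by
    have h8 : 2 * (lam * Real.log X) ≤ 2 * lam / e * (X : ℝ) ^ e := by
      have := mul_le_mul_of_nonneg_left h5 (by positivity : 0 ≤ 2 * lam)
      calc 2 * (lam * Real.log X) = 2 * lam * Real.log X := by ring
        _ ≤ 2 * lam * ((X : ℝ) ^ e / e) := this
        _ = 2 * lam / e * (X : ℝ) ^ e := by ring
    linarith
  calc ((J : ℝ) + 1) ^ (B + 1) ≤ ((2 * lam / e + 3) * (X : ℝ) ^ e) ^ (B + 1) :=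
        pow_le_pow_left₀ (by positivity) h7 _
    _ = (2 * lam / e + 3) ^ (B + 1) * (X : ℝ) ^ ε := by
        rw [mul_pow, ← Real.rpow_natCast ((X : ℝ) ^ e), ← Real.rpow_mul hX0.le]
        congr 2
        rw [he]
        push_cast
        field_simp

/-- **The tool.** -/
theorem core {G : ℕ → ℝ} {d ϑ γ ρ τ lam : ℝ} (hG : Expanding G d) (hϑ0 : 0 ≤ ϑ) (hϑ1 : ϑ < 1) (hγ0 : 0 ≤ γ) (hγ1 : γ < 1)
    (hτ : 0 ≤ τ) (hlam : 0 < lam) (hρ : ρ + lam * τ < (1 - γ) * (1 - ϑ) / 2) (m B M₀ : ℕ) (K : ℝ) (hK : 0 ≤ K) :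
    ∃ C : ℝ, ∀ X : ℕ, 1 ≤ X → ∀ (A : ℕ → Finset ℕ) (P : ℕ → ℕ → Prop),
      (∀ j, ((A j).card : ℝ) ≤ K * (2 : ℝ) ^ ((j : ℝ) * τ) * ((j : ℝ) + 1) ^ B) →
      (∀ N a : ℕ, M₀ ≤ N → (a : ℝ) ≤ (N : ℝ) ^ (d * m + 1) → P N a → a ∈ A (Nat.log 2 N + 1)) →
      ({p : ℕ | p.Prime ∧ p ≤ X ∧ ∃ w, SubOrder ((X : ℝ) ^ γ) p w ∧ ∃ a : ℕ, |(a : ℝ) - G w| ≤ (w : ℝ) ^ ϑ ∧
        ∃ N : ℕ, X ≤ N ^ m ∧ (N : ℝ) ≤ (X : ℝ) ^ lam ∧ P N a}.ncard : ℝ) ≤ C * (X : ℝ) ^ (1 - ρ) := by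
  classical
  obtain ⟨CG, hCG⟩ := hG.growth
  have hd1 := hG.one_le
  obtain ⟨ε, hε⟩ : ∃ ε : ℝ, ε = ((1 - γ) * (1 - ϑ) / 2 - (ρ + lam * τ)) / 2 := ⟨_, rfl⟩
  have hε0 : 0 < ε := by rw [hε]; linarith
  obtain ⟨C1, hC1, hsub⟩ := sub_scale hG (κ := ϑ) (c := γ) (η := ρ + lam * τ + ε) hϑ0 hϑ1 hγ0 hγ1 (by rw [hε]; linarith)
  obtain ⟨K2, hK2, hlog⟩ := log_bound lam ε hlam hε0 B
  obtain ⟨M, hM⟩ : ∃ M : ℕ, M = M₀ + ⌈|CG| + 1⌉₊ + 2 := ⟨_, rfl⟩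
  have hρ1 : ρ < 1 := by
    have h1 : (1 - γ) * (1 - ϑ) ≤ 1 := by nlinarith
    have h2 : 0 ≤ lam * τ := by positivity
    linarith
  refine ⟨(M : ℝ) ^ m + C1 * (K * 2 ^ τ * K2), fun X hX A P hA hP => ?_⟩
  have hX1 : (1 : ℝ) ≤ X := by exact_mod_cast hX
  have hX0 : (0 : ℝ) < X := by linarith
  have hXρ : (1 : ℝ) ≤ (X : ℝ) ^ (1 - ρ) := Real.one_le_rpow hX1 (by linarith)
  have hpos2 : 0 ≤ C1 * (K * 2 ^ τ * K2) := by positivity
  by_cases hsm : X ≤ M ^ m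
  · -- small `X`
    have h1 : ({p : ℕ | p.Prime ∧ p ≤ X ∧ ∃ w, SubOrder ((X : ℝ) ^ γ) p w ∧ ∃ a : ℕ, |(a : ℝ) - G w| ≤ (w : ℝ) ^ ϑ ∧
        ∃ N : ℕ, X ≤ N ^ m ∧ (N : ℝ) ≤ (X : ℝ) ^ lam ∧ P N a}.ncard : ℝ) ≤ X := by
      have h2 : {p : ℕ | p.Prime ∧ p ≤ X ∧ ∃ w, SubOrder ((X : ℝ) ^ γ) p w ∧ ∃ a : ℕ, |(a : ℝ) - G w| ≤ (w : ℝ) ^ ϑ ∧
          ∃ N : ℕ, X ≤ N ^ m ∧ (N : ℝ) ≤ (X : ℝ) ^ lam ∧ P N a} ⊆ ((Icc 1 X : Finset ℕ) : Set ℕ) := by
        rintro p ⟨hp, hpX, -⟩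
        rw [mem_coe, mem_Icc]
        exact ⟨hp.one_lt.le, hpX⟩
      have h3 := Set.ncard_le_ncard h2 (finite_toSet _)
      rw [Set.ncard_coe_finset, Nat.card_Icc, Nat.add_sub_cancel] at h3
      exact_mod_cast h3
    have h4 : (X : ℝ) ≤ (M : ℝ) ^ m := by exact_mod_cast hsm
    have h5 : (0 : ℝ) ≤ (M : ℝ) ^ m := by positivity
    nlinarith
  · push Not at hsm
    obtain ⟨J, hJ⟩ : ∃ J, J = Nat.log 2 ⌊(X : ℝ) ^ lam⌋₊ + 1 := ⟨_, rfl⟩
    have hXl : (1 : ℝ) ≤ (X : ℝ) ^ lam := Real.one_le_rpow hX1 hlam.le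
    have hfl1 : 1 ≤ ⌊(X : ℝ) ^ lam⌋₊ := Nat.le_floor (by exact_mod_cast hXl)
    have hJ2 : ((2 : ℝ) ^ J) ≤ 2 * (X : ℝ) ^ lam := by
      rw [hJ, pow_succ]
      have h1 : ((2 ^ Nat.log 2 ⌊(X : ℝ) ^ lam⌋₊ : ℕ) : ℝ) ≤ (⌊(X : ℝ) ^ lam⌋₊ : ℝ) := by
        exact_mod_cast Nat.pow_log_le_self 2 (by omega)
      push_cast at h1
      have h2 : (⌊(X : ℝ) ^ lam⌋₊ : ℝ) ≤ (X : ℝ) ^ lam := Nat.floor_le (by positivity)
      linarith
    obtain ⟨S, hS⟩ : ∃ S : Finset ℕ, S = (range (J + 1)).biUnion A := ⟨_, rfl⟩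
    have hScard : (S.card : ℝ) ≤ K * 2 ^ τ * K2 * (X : ℝ) ^ (lam * τ + ε) := by
      have h1 : (S.card : ℝ) ≤ ∑ j ∈ range (J + 1), ((A j).card : ℝ) := by
        rw [hS]
        exact_mod_cast card_biUnion_le
      have h2 : ∑ j ∈ range (J + 1), ((A j).card : ℝ) ≤
          ∑ _j ∈ range (J + 1), K * (2 : ℝ) ^ ((J : ℝ) * τ) * ((J : ℝ) + 1) ^ B := by
        apply sum_le_sum
        intro j hj
        rw [mem_range] at hj
        have hjJ : (j : ℝ) ≤ J := by exact_mod_cast (by omega : j ≤ J)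
        refine (hA j).trans ?_
        apply mul_le_mul
        · apply mul_le_mul_of_nonneg_left _ hK
          exact Real.rpow_le_rpow_of_exponent_le (by norm_num) (mul_le_mul_of_nonneg_right hjJ hτ)
        · exact pow_le_pow_left₀ (by positivity) (by linarith) _
        · positivity
        · positivity
      rw [sum_const, card_range, nsmul_eq_mul] at h2
      have h3 : (2 : ℝ) ^ ((J : ℝ) * τ) ≤ 2 ^ τ * (X : ℝ) ^ (lam * τ) := by
        rw [Real.rpow_mul (by norm_num), Real.rpow_natCast, Real.rpow_mul hX0.le,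
          ← Real.mul_rpow (by norm_num) (by positivity)]
        exact Real.rpow_le_rpow (by positivity) hJ2 hτ
      have h4 := hlog X hX J hJ2
      calc (S.card : ℝ) ≤ ((J + 1 : ℕ) : ℝ) * (K * (2 : ℝ) ^ ((J : ℝ) * τ) * ((J : ℝ) + 1) ^ B) := h1.trans h2
        _ = K * (2 : ℝ) ^ ((J : ℝ) * τ) * ((J : ℝ) + 1) ^ (B + 1) := by push_cast; ring
        _ ≤ K * (2 ^ τ * (X : ℝ) ^ (lam * τ)) * (K2 * (X : ℝ) ^ ε) := by
            apply mul_le_mul _ h4 (by positivity) (by positivity)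
            exact mul_le_mul_of_nonneg_left h3 hK
        _ = K * 2 ^ τ * K2 * (X : ℝ) ^ (lam * τ + ε) := by
            rw [Real.rpow_add hX0]
            ring
    have hcount := hsub X hX S
    have hincl : {p : ℕ | p.Prime ∧ p ≤ X ∧ ∃ w, SubOrder ((X : ℝ) ^ γ) p w ∧ ∃ a : ℕ, |(a : ℝ) - G w| ≤ (w : ℝ) ^ ϑ ∧
        ∃ N : ℕ, X ≤ N ^ m ∧ (N : ℝ) ≤ (X : ℝ) ^ lam ∧ P N a} ⊆
        {p : ℕ | p.Prime ∧ p ≤ X ∧ ∃ n, SubOrder ((X : ℝ) ^ γ) p n ∧ ∃ t ∈ S, |(t : ℝ) - G n| ≤ (n : ℝ) ^ ϑ} := by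
      rintro p ⟨hp, hpX, w, hw, a, hnear, N, hN1, hN2, hPN⟩
      refine ⟨hp, hpX, w, hw, a, ?_, hnear⟩
      obtain ⟨hw1, hwd, -⟩ := hw.facts hp
      have hwX : (w : ℝ) ≤ X := by
        have h1 : w ≤ p - 1 := Nat.le_of_dvd (by have := hp.one_lt; omega) hwd
        exact_mod_cast (by omega : w ≤ X)
      have hNM : M < N := by
        by_contra hcon
        push Not at hcon
        have := Nat.pow_le_pow_left hcon m
        omega
      have hN1' : (1 : ℝ) ≤ N := by exact_mod_cast (by omega : 1 ≤ N)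
      have ha : (a : ℝ) ≤ (N : ℝ) ^ (d * m + 1) := by
        have h1 := (abs_le.1 hnear).2
        have h2 := hCG w hw1
        have hw1' : (1 : ℝ) ≤ w := by exact_mod_cast hw1
        have h3 : (w : ℝ) ^ ϑ ≤ (w : ℝ) ^ d := Real.rpow_le_rpow_of_exponent_le hw1' (by linarith)
        have h4 : (w : ℝ) ^ d ≤ (X : ℝ) ^ d := Real.rpow_le_rpow (by linarith) hwX (by linarith)
        have h5 : (X : ℝ) ^ d ≤ (N : ℝ) ^ (d * m) := by
          have h6 : (X : ℝ) ≤ (N : ℝ) ^ m := by exact_mod_cast hN1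
          calc (X : ℝ) ^ d ≤ ((N : ℝ) ^ m) ^ d := Real.rpow_le_rpow (by linarith) h6 (by linarith)
            _ = (N : ℝ) ^ (d * m) := by
                rw [← Real.rpow_natCast, ← Real.rpow_mul (by linarith)]
                congr 1
                ring
        have h7 : |CG| + 1 ≤ N := by
          refine (Nat.le_ceil _).trans ?_
          exact_mod_cast (by omega : ⌈|CG| + 1⌉₊ ≤ N)
        calc (a : ℝ) ≤ CG * (w : ℝ) ^ d + (w : ℝ) ^ ϑ := by linarith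
          _ ≤ |CG| * (w : ℝ) ^ d + (w : ℝ) ^ d :=
              add_le_add (mul_le_mul_of_nonneg_right (le_abs_self CG) (by positivity)) h3
          _ = (|CG| + 1) * (w : ℝ) ^ d := by ring
          _ ≤ N * (N : ℝ) ^ (d * m) := mul_le_mul h7 (h4.trans h5) (by positivity) (by linarith)
          _ = (N : ℝ) ^ (d * m + 1) := by
              rw [Real.rpow_add (by linarith), Real.rpow_one]
              ring
      have hmem := hP N a (by omega) ha hPN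
      rw [hS, mem_biUnion]
      refine ⟨Nat.log 2 N + 1, ?_, hmem⟩
      rw [mem_range]
      have h8 : N ≤ ⌊(X : ℝ) ^ lam⌋₊ := Nat.le_floor hN2
      have h9 := Nat.log_mono_right (b := 2) h8
      omega
    have hfin : {p : ℕ | p.Prime ∧ p ≤ X ∧ ∃ n, SubOrder ((X : ℝ) ^ γ) p n ∧ ∃ t ∈ S, |(t : ℝ) - G n| ≤ (n : ℝ) ^ ϑ}.Finite :=
      (Set.finite_Icc 0 X).subset (fun p hp => ⟨Nat.zero_le _, hp.2.1⟩)
    have h1 := Set.ncard_le_ncard hincl hfin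
    have h2 : ((2 : ℝ)) ^ τ = 2 ^ τ := rfl
    calc (_ : ℝ) ≤ C1 * S.card * (X : ℝ) ^ (1 - (ρ + lam * τ + ε)) := le_trans (by exact_mod_cast h1) hcount
      _ ≤ C1 * (K * 2 ^ τ * K2 * (X : ℝ) ^ (lam * τ + ε)) * (X : ℝ) ^ (1 - (ρ + lam * τ + ε)) := by
          gcongr
      _ = C1 * (K * 2 ^ τ * K2) * (X : ℝ) ^ (1 - ρ) := by
          have h3 : (X : ℝ) ^ (1 - ρ) = (X : ℝ) ^ (lam * τ + ε) * (X : ℝ) ^ (1 - (ρ + lam * τ + ε)) := by
            rw [← Real.rpow_add hX0]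
            congr 1
            ring
          rw [h3]
          ring
      _ ≤ ((M : ℝ) ^ m + C1 * (K * 2 ^ τ * K2)) * (X : ℝ) ^ (1 - ρ) := by
          apply mul_le_mul_of_nonneg_right _ (by positivity)
          have : (0 : ℝ) ≤ (M : ℝ) ^ m := by positivity
          linarith

end Pool.Agent.T9h59.WL
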